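import Pool.Agent.Helper84.SQ.GoalsA

/-!
# Separable indefinite quadratic integer programs, packet GRD: the grid
-/

namespace Pool.Agent.Helper9.SQ

open Pool.Agent.Helper84.SQ

theorem grd_steps (h1 : StpStmt) (m n : ℕ) (W : Matrix (Fin m) (Fin n) ℤ) (w : Fin m → ℤ)
    (i0 : Fin n) (κ h : Fin n → ℝ) (Rg : ℝ) (D e σ : ℤ) (hW : W.IsTotallyUnimodular)
    (hσ : σ = 1 ∨ σ = -1) (hD : 0 < D) (hRg : 0 ≤ Rg) (b : Fin n → ℤ) (hb : b ∈ Fea W w)
    (hbe : b i0 = e)
    (hR : ∀ x ∈ Fea W w, ∀ y ∈ Fea W w, gq κ h x - gq κ h y ≤ Rg) (a : Fin n → ℤ)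
    (ha : a ∈ Fea W w) (hae : D ≤ 2 * (σ * (e - a i0))) (j : ℕ) (hj : 4 * (j : ℤ) < D) :
    ∃ a' ∈ Fea W w, a' i0 = a i0 + σ * j ∧
      gq κ h a' ≤ gq κ h a + j * (20 * Rg / D) := by
  induction j with
  | zero =>
    refine ⟨a, ha, by simp, by simp⟩
  | succ j ih =>
    obtain ⟨a', ha', h2, h3⟩ := ih (by push_cast at hj; omega)
    have hσ2 : σ * σ = 1 := by rcases hσ with h | h <;> subst h <;> norm_num
    obtain ⟨N, hN⟩ : ∃ N : ℕ, (N : ℤ) = σ * (e - a i0) - j := by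
      have : 0 ≤ σ * (e - a i0) - j := by push_cast at hj; omega
      exact ⟨(σ * (e - a i0) - j).toNat, Int.toNat_of_nonneg this⟩
    have hN4 : D ≤ 4 * (N : ℤ) := by push_cast at hj; omega
    have hN1 : 1 ≤ N := by omega
    have hbN : b i0 = a' i0 + σ * N := by
      rw [hbe, h2, hN]
      have e1 : σ * (σ * (e - a i0) - j) = (σ * σ) * (e - a i0) - σ * j := by ring
      rw [e1, hσ2]
      ring
    obtain ⟨a'', ha'', h4, h5⟩ := h1 m n N W w a' b i0 σ κ h Rg hW hN1 hσ ha' hb hbN hR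
    refine ⟨a'', ha'', ?_, ?_⟩
    · rw [h4, h2]
      push_cast
      ring
    · refine h5.trans ?_
      have hDr : (0 : ℝ) < D := by exact_mod_cast hD
      have hNr : (0 : ℝ) < N := by exact_mod_cast (by omega : 0 < N)
      have hN4r : (D : ℝ) ≤ 4 * N := by exact_mod_cast hN4
      have e2 : 5 * Rg / N ≤ 20 * Rg / D := by
        rw [div_le_div_iff₀ hNr hDr]
        nlinarith
      push_cast
      linarith

theorem grd (h1 : StpStmt) : GrdStmt := by
  intro m n K W w i0 κ h Rg l u hW hK hl hu hlu hR a ha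
  obtain ⟨xl, hxl, hxl'⟩ := hl
  obtain ⟨xu, hxu, hxu'⟩ := hu
  have hRg : 0 ≤ Rg := by
    have := hR a ha a ha
    linarith
  have hKZ : (0 : ℤ) < K := by exact_mod_cast (by omega : 0 < K)
  have hKR : (0 : ℝ) < K := by exact_mod_cast (by omega : 0 < K)
  have hcost : 0 ≤ 20 * Rg / K := by positivity
  obtain ⟨hal, hau⟩ := hlu a ha
  obtain ⟨T, hT⟩ : ∃ T : ℕ → ℤ, T = fun k : ℕ => l + (k : ℤ) * (u - l) / (K : ℤ) := ⟨_, rfl⟩
  have hT0 : T 0 = l := by rw [hT]; simp
  have hTK : T K = u := by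
    rw [hT]
    simp only
    rw [Int.mul_ediv_cancel_left _ hKZ.ne']
    ring
  by_cases hex : ∃ k ≤ K, T k = a i0
  · obtain ⟨k, hk, hk'⟩ := hex
    refine ⟨k, hk, a, ha, ?_, by linarith⟩
    rw [← hk', hT]
  · push Not at hex
    have hlt : a i0 < T K := by
      have := hex K le_rfl
      rw [hTK] at this ⊢
      omega
    have hfind : ∃ k, a i0 < T k := ⟨K, hlt⟩
    classical
    obtain ⟨k, hk⟩ : ∃ k, k = Nat.find hfind := ⟨_, rfl⟩
    have hk1 : a i0 < T k := by rw [hk]; exact Nat.find_spec hfind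
    have hkK : k ≤ K := by rw [hk]; exact Nat.find_min' hfind hlt
    have hk0 : k ≠ 0 := by
      intro h0
      rw [h0, hT0] at hk1
      omega
    have hk2 : T (k - 1) < a i0 := by
      have e1 : ¬ a i0 < T (k - 1) := by
        apply Nat.find_min hfind
        rw [← hk]
        omega
      have e2 := hex (k - 1) (by omega)
      omega
    have hlu' : l < u := by
      by_contra hcon
      have : a i0 = l := by omega
      exact hex 0 (by omega) (by rw [hT0, this])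
    obtain ⟨D, hD⟩ : ∃ D : ℤ, D = u - l := ⟨_, rfl⟩
    have hDp : 0 < D := by omega
    have hDr : (0 : ℝ) < D := by exact_mod_cast hDp
    have hgap : (K : ℤ) * (T k - T (k - 1)) < D + K := by
      have e1 : (K : ℤ) * ((k : ℤ) * D / K) ≤ k * D := Int.mul_ediv_self_le hKZ.ne'
      have e2 : ((k - 1 : ℕ) : ℤ) * D < K * (((k - 1 : ℕ) : ℤ) * D / K) + K :=
        Int.lt_mul_ediv_self_add hKZ
      have e3 : ((k - 1 : ℕ) : ℤ) = (k : ℤ) - 1 := by
        rw [Nat.cast_sub (by omega)]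
        rfl
      rw [hT]
      simp only
      rw [← hD]
      rw [e3] at e2 ⊢
      have e4 : (K : ℤ) * (l + (k : ℤ) * D / K - (l + ((k : ℤ) - 1) * D / K)) =
          K * ((k : ℤ) * D / K) - K * (((k : ℤ) - 1) * D / K) := by ring
      rw [e4]
      nlinarith
    have key : ∀ s : ℕ, (s : ℤ) + 1 ≤ T k - T (k - 1) → (K : ℤ) * s < D := by
      intro s hs
      have e1 : (K : ℤ) * (s + 1) ≤ K * (T k - T (k - 1)) :=
        mul_le_mul_of_nonneg_left hs hKZ.le
      nlinarith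
    have key4 : ∀ s : ℕ, (K : ℤ) * s < D → 4 * (s : ℤ) < D := by
      intro s hs
      have e1 : (4 : ℤ) * s ≤ K * s :=
        mul_le_mul_of_nonneg_right (by exact_mod_cast hK) (by positivity)
      omega
    have fin : ∀ s : ℕ, (K : ℤ) * s < D → (s : ℝ) * (20 * Rg / D) ≤ 20 * Rg / K := by
      intro s hs
      have e1 : (K : ℝ) * s ≤ D := by exact_mod_cast hs.le
      rw [← mul_div_assoc, div_le_div_iff₀ hDr hKR]
      nlinarith
    by_cases hup : 2 * (a i0 - l) ≤ u - l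
    · -- up
      obtain ⟨s, hs⟩ : ∃ s : ℕ, (s : ℤ) = T k - a i0 :=
        ⟨(T k - a i0).toNat, Int.toNat_of_nonneg (by omega)⟩
      have hs1 := key s (by omega)
      obtain ⟨a', ha', h2, h3⟩ := grd_steps h1 m n W w i0 κ h Rg D u 1 hW (Or.inl rfl) hDp hRg xu
        hxu hxu' hR a ha (by omega) s (key4 s hs1)
      refine ⟨k, hkK, a', ha', ?_, h3.trans (by have := fin s hs1; linarith)⟩
      rw [h2, one_mul, hs]
      rw [show l + (k : ℤ) * (u - l) / (K : ℤ) = T k by rw [hT]]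
      ring
    · -- down
      obtain ⟨s, hs⟩ : ∃ s : ℕ, (s : ℤ) = a i0 - T (k - 1) :=
        ⟨(a i0 - T (k - 1)).toNat, Int.toNat_of_nonneg (by omega)⟩
      have hs1 := key s (by omega)
      obtain ⟨a', ha', h2, h3⟩ := grd_steps h1 m n W w i0 κ h Rg D l (-1) hW (Or.inr rfl) hDp hRg
        xl hxl hxl' hR a ha (by omega) s (key4 s hs1)
      refine ⟨k - 1, by omega, a', ha', ?_, h3.trans (by have := fin s hs1; linarith)⟩
      rw [h2, hs]
      rw [show l + ((k - 1 : ℕ) : ℤ) * (u - l) / (K : ℤ) = T (k - 1) by rw [hT]]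
      ring

end Pool.Agent.Helper9.SQ
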